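import Pool.Agent.Ruler.Lower
import Pool.Agent.Ruler.Simple
import Pool.Agent.Ruler.Disc

/-!
MP_067807_co: convexity of the case makes a difference, `A_simp < A_conv`.
-/

open Set MeasureTheory

namespace Pool.Agent.Results.MP_067807_co.SimpleBeatsConvex

open Pool.Agent.Ruler

/-- the areas of the universal cases of diameter one -/
def areasSimp : Set ℝ :=
  {x | ∃ S : Set ℂ, IsCase S ∧ Metric.diam S = 1 ∧ Universal S ∧ x = (volume S).toReal}

/-- the areas of the convex universal cases of diameter one -/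
def areasConv : Set ℝ :=
  {x | ∃ K : Set ℂ, IsCase K ∧ Convex ℝ K ∧ Metric.diam K = 1 ∧ Universal K ∧
    x = (volume K).toReal}

/-- `A_simp` -/
noncomputable def Asimp : ℝ := sInf areasSimp

/-- `A_conv` -/
noncomputable def Aconv : ℝ := sInf areasConv

theorem areasConv_nonempty : areasConv.Nonempty :=
  ⟨_, disc, disc_isCase, disc_convex, disc_diam, disc_universal, rfl⟩

theorem areasSimp_bddBelow : BddBelow areasSimp := by
  refine ⟨0, ?_⟩
  rintro _ ⟨S, -, -, -, rfl⟩
  exact ENNReal.toReal_nonneg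

theorem result : areasSimp.Nonempty ∧ areasConv.Nonempty ∧ Asimp < Aconv ∧
    Asimp ≤ 0.558 ∧ 0.56 ≤ Aconv := by
  obtain ⟨S, h1, h2, h3, h4⟩ := simple_upper
  have hS : (volume S).toReal ∈ areasSimp := ⟨S, h1, h2, h3, rfl⟩
  have hA : Asimp ≤ 0.558 := (csInf_le areasSimp_bddBelow hS).trans h4
  have hB : 0.56 ≤ Aconv := by
    refine le_csInf areasConv_nonempty ?_
    rintro _ ⟨K, k1, k2, k3, k4, rfl⟩
    exact conv_lower k2 k1.1 k3 k4
  exact ⟨⟨_, hS⟩, areasConv_nonempty, by linarith [show (0.558:ℝ) < 0.56 by norm_num], hA, hB⟩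

end Pool.Agent.Results.MP_067807_co.SimpleBeatsConvex
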